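import Mathlib
import Pool.Agent.H48.WeylB

set_option autoImplicit false

namespace Pool.Agent.Results.MP_35679e_nt.Disproof

/-- The extended main conjecture (Q1) is false: it fails for `k = 2`, `s = 11/4`, `ε = 1/64`. -/
theorem result :
    ∃ (k : ℕ) (s ε : ℝ), 1 ≤ k ∧ (k : ℝ) * ((k : ℝ) + 1) / 4 + 1 ≤ s ∧ 0 < ε ∧
      ∀ C : ℝ, ∃ X : ℝ, 1 ≤ X ∧ ∃ B : Set (Fin k → ℝ), MeasurableSet B ∧
        B ⊆ Set.pi Set.univ (fun _ => Set.Ico (0 : ℝ) 1) ∧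
        C * X ^ ε * (X ^ s * (MeasureTheory.volume B).toReal
              + X ^ (2 * s - (k : ℝ) * ((k : ℝ) + 1) / 2)) <
          ∫ α in B, ‖∑ x ∈ Finset.Icc 1 ⌊X⌋₊,
            Complex.exp (2 * (Real.pi : ℂ) * Complex.I *
              ∑ j : Fin k, (α j : ℂ) * (x : ℂ) ^ ((j : ℕ) + 1))‖ ^ (2 * s) := by
  refine ⟨2, 11 / 4, 1 / 64, by norm_num, by norm_num, by norm_num, fun C => ?_⟩
  obtain ⟨X, hX, B, hB, hsub, -, hlt⟩ := Pool.Agent.H48.WeylB.main C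
  have e2 : (2 * (11 / 4) - ((2 : ℕ) : ℝ) * (((2 : ℕ) : ℝ) + 1) / 2) = 5 / 2 := by norm_num
  have e3 : (2 * (11 / 4) : ℝ) = 11 / 2 := by norm_num
  refine ⟨X, by exact_mod_cast hX, B, hB, hsub, ?_⟩
  rw [e2, e3, Nat.floor_natCast]
  exact hlt

end Pool.Agent.Results.MP_35679e_nt.Disproof
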